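import Pool.Agent.K9h2.LI.Lower

/-!
# Liénard systems: the mean number of closed orbits is of order `log n`

`x' = v`, `v' = -q(x) - (p(x) + μ) v` with polynomials `p` (friction, degree `≤ n`) and `q`
(restoring force, `x q(x) > 0` for `x ≠ 0`, degree `≤ m`). For every `p` the number of closed orbits
of any size along which the friction `p(x) + μ` is at most `Λ` in absolute value has integral over
`μ` at most `4 Λ log (1 + 96 (m + 1)² n²)`, while closed orbits exist only for `|p(0) + μ| ≤ Λ`, an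
interval of length `2 Λ`. The order `log n` is attained, with `q = x`.
-/

namespace Pool.Agent.Results.MP_95e7ec_an.LienardLogarithmicMean

open Polynomial MeasureTheory Set
open scoped ENNReal

/-- The closed orbits (images of nonconstant periodic solutions) of the planar polynomial system
`x' = v`, `v' = -q(x) - (p(x) + μ) v` along which `|p(x) + μ| ≤ Λ`. -/
def closedOrbits (q p : ℝ[X]) (μ Λ : ℝ) : Set (Set (ℝ × ℝ)) :=
  {C | ∃ γ : ℝ → ℝ × ℝ, ∃ T : ℝ, 0 < T ∧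
    (∀ t, HasDerivAt γ ((γ t).2, -q.eval (γ t).1 - (p.eval (γ t).1 + μ) * (γ t).2) t) ∧
    (∀ t, γ (t + T) = γ t) ∧ (∃ s t, γ s ≠ γ t) ∧
    (∀ t, |p.eval (γ t).1 + μ| ≤ Λ) ∧ C = range γ}

theorem result :
    (∀ (n m : ℕ) (p q : ℝ[X]), p.natDegree ≤ n → q.natDegree ≤ m →
      (∀ x : ℝ, x ≠ 0 → 0 < x * q.eval x) → ∀ Λ : ℝ, 0 < Λ →
      (∀ μ : ℝ, (closedOrbits q p μ Λ).Nonempty → |p.eval 0 + μ| ≤ Λ) ∧
      ∃ N : ℝ → ℝ≥0∞, Measurable N ∧
        (∀ μ : ℝ, (((closedOrbits q p μ Λ).encard : ℕ∞) : ℝ≥0∞) ≤ N μ) ∧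
        ∫⁻ μ, N μ ≤ ENNReal.ofReal (4 * Λ * Real.log (1 + 96 * (m + 1) ^ 2 * n ^ 2))) ∧
    (∀ (K : ℕ) (Λ : ℝ), 0 < Λ → Λ ≤ 1 / 10 →
      ∃ p : ℝ[X], p.natDegree ≤ 2 ^ (30 * K + 1) ∧
        ∀ μ ∈ Icc (-Λ) (-(2 / 3) * Λ), (K : ℕ∞) ≤ (closedOrbits X p μ Λ).encard) := by
  refine ⟨?_, ?_⟩
  · intro n m p q hp hq hg Λ hΛ
    have hR : K9h2.LI.Rest fun x => q.eval x := by
      refine ⟨q.continuous, fun x hx => ?_, fun x hx => ?_⟩
      · have := hg x hx.ne
        by_contra hcon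
        push Not at hcon
        nlinarith
      · have := hg x hx.ne'
        by_contra hcon
        push Not at hcon
        nlinarith
    refine ⟨fun μ hne => ?_, K9h2.LI.main_poly n m p q hp hq hR Λ hΛ⟩
    obtain ⟨C, hC⟩ := hne
    obtain ⟨o, ho, -⟩ := K9h2.LI.exists_orb hR p.continuous
      (show C ∈ K9h2.LI.orbits (fun x => q.eval x) (fun x => p.eval x) μ Λ from hC)
    have := o.bd 0 o.zero_mem
    rw [ho] at this
    exact this
  · intro K Λ h0 h1
    obtain ⟨p, h2, h3⟩ := K9h2.LI.lower K h0 h1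
    refine ⟨p, h2, fun μ hμ => ?_⟩
    have h4 := h3 μ hμ
    have e : K9h2.LI.orbits (fun x => x) (fun x => p.eval x) μ Λ = closedOrbits X p μ Λ := by
      unfold K9h2.LI.orbits closedOrbits
      simp only [eval_X]
    rwa [e] at h4

end Pool.Agent.Results.MP_95e7ec_an.LienardLogarithmicMean
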