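import Pool.Agent.K9h2.LW.VarMean

/-!
# Liénard systems with even friction: closed orbits and the total variation of the friction

`x' = v`, `v' = -g(x) - (φ(|x|) + μ) v` with a continuously differentiable `φ` and a nondecreasing
restoring force `g`. The number of all closed orbits in the strip `|x| ≤ R`, as a function of the
friction constant `μ`, has integral at most `(1 + log 8 / 2) ∫_0^R |φ'|`, that is `2.04` times the
integral over `μ` of the number of zeros of the friction `φ + μ` in `(0, R]`; likewise for the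
whole plane. The bound is attained up to a constant factor.
-/

namespace Pool.Agent.Results.MP_95e7ec_an.LienardVariationMean

open Polynomial MeasureTheory Set
open scoped ENNReal

/-- The closed orbits (images of nonconstant periodic solutions) of the planar system
`x' = v`, `v' = -g(x) - (φ(|x|) + μ) v`. -/
def closedOrbits (g φ : ℝ → ℝ) (μ : ℝ) : Set (Set (ℝ × ℝ)) :=
  {C | ∃ γ : ℝ → ℝ × ℝ, ∃ T : ℝ, 0 < T ∧
    (∀ t, HasDerivAt γ ((γ t).2, -g (γ t).1 - (φ |(γ t).1| + μ) * (γ t).2) t) ∧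
    (∀ t, γ (t + T) = γ t) ∧ (∃ s t, γ s ≠ γ t) ∧ C = range γ}

theorem result :
    (∀ g : ℝ → ℝ, Continuous g → Monotone g → (∀ x : ℝ, x ≠ 0 → 0 < x * g x) →
      ∀ φ φ' : ℝ → ℝ, (∀ t, HasDerivAt φ (φ' t) t) → Continuous φ' →
      (∀ R : ℝ, 0 < R → ∃ N : ℝ → ℝ≥0∞, Measurable N ∧
        (∀ μ : ℝ, (({C | C ∈ closedOrbits g φ μ ∧ ∀ z ∈ C, |z.1| ≤ R}.encard : ℕ∞) : ℝ≥0∞) ≤
          N μ) ∧
        ∫⁻ μ, N μ ≤ ENNReal.ofReal (1 + Real.log 8 / 2) *
          ∫⁻ t in Ioc 0 R, ENNReal.ofReal |φ' t|) ∧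
      ∃ N : ℝ → ℝ≥0∞, Measurable N ∧
        (∀ μ : ℝ, (((closedOrbits g φ μ).encard : ℕ∞) : ℝ≥0∞) ≤ N μ) ∧
        ∫⁻ μ, N μ ≤ ENNReal.ofReal (1 + Real.log 8 / 2) *
          ∫⁻ t in Ioi 0, ENNReal.ofReal |φ' t|) ∧
    (∀ (K : ℕ) (Λ : ℝ), 0 < Λ → Λ ≤ 1 / 10 →
      ∃ p : ℝ[X], (∀ x : ℝ, p.eval (-x) = p.eval x) ∧
        ∫⁻ t in Ioc (0 : ℝ) 1, ENNReal.ofReal |(derivative p).eval t| ≤
          ENNReal.ofReal (5 * Λ / 3 * (K + 1)) ∧
        ∀ μ ∈ Icc (-Λ) (-(2 / 3) * Λ), (K : ℕ∞) ≤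
          {C | C ∈ closedOrbits (fun x => x) (fun x => p.eval x) μ ∧ ∀ z ∈ C, |z.1| ≤ 1}.encard) := by
  have horb : ∀ (g φ : ℝ → ℝ) (μ : ℝ),
      K9h2.LW.orbitsW g (fun x => φ |x|) (fun _ => 1) μ = closedOrbits g φ μ := by
    intro g φ μ
    unfold K9h2.LW.orbitsW closedOrbits
    simp only [mul_one]
  refine ⟨?_, ?_⟩
  · intro g hg hm hs φ φ' hφ hφ'
    have hR : K9h2.LI.Rest g := by
      refine ⟨hg, fun x hx => ?_, fun x hx => ?_⟩
      · have := hs x hx.ne
        by_contra hcon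
        push Not at hcon
        nlinarith
      · have := hs x hx.ne'
        by_contra hcon
        push Not at hcon
        nlinarith
    refine ⟨fun R hR0 => ?_, ?_⟩
    · obtain ⟨N, h1, h2, h3⟩ := K9h2.LW.var_bound hR hm hφ hφ' (J := Ioc 0 R) measurableSet_Ioc
        Ioc_subset_Ioi_self (fun C => ∀ z ∈ C, |z.1| ≤ R) (by
          intro o ho
          have hlr : o.l ≤ o.r := (o.loop.up.hl.trans o.loop.up.hr).le
          have hl1 := abs_le.1 (ho (o.l, o.U o.l) (Or.inl ⟨o.l, left_mem_Icc.2 hlr, rfl⟩))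
          have hr1 := abs_le.1 (ho (o.r, o.U o.r) (Or.inl ⟨o.r, right_mem_Icc.2 hlr, rfl⟩))
          refine Ioc_subset_Ioc_right (max_le hr1.2 (by linarith [hl1.1])))
      refine ⟨N, h1, fun μ => ?_, h3⟩
      have := h2 μ
      rwa [horb] at this
    · obtain ⟨N, h1, h2, h3⟩ := K9h2.LW.var_bound hR hm hφ hφ' (J := Ioi 0) measurableSet_Ioi
        subset_rfl (fun _ => True) (fun o _ => Ioc_subset_Ioi_self)
      refine ⟨N, h1, fun μ => ?_, h3⟩
      have := h2 μ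
      rw [horb] at this
      simpa using this
  · intro K Λ h0 h1
    have heven : ∀ x : ℝ, (C (5 * Λ / 3) * K9h2.LI.wav K).eval (-x) =
        (C (5 * Λ / 3) * K9h2.LI.wav K).eval x := by
      intro x
      rw [eval_mul, eval_mul, K9h2.LI.wav_eval, K9h2.LI.wav_eval, neg_sq, eval_C, eval_C]
    refine ⟨C (5 * Λ / 3) * K9h2.LI.wav K, heven, K9h2.LW.wav_var K h0, fun μ hμ => ?_⟩
    refine (K9h2.LW.lower_strip K h0 h1 μ hμ).trans (encard_le_encard ?_)
    rintro C' ⟨hC, hC2⟩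
    refine ⟨?_, fun z hz => abs_le.2 (hC2 z hz)⟩
    have e : (fun x => (C (5 * Λ / 3) * K9h2.LI.wav K).eval x) =
        fun x => (fun x => (C (5 * Λ / 3) * K9h2.LI.wav K).eval x) |x| := by
      funext x
      rcases abs_choice x with h | h
      · simp only [h]
      · simp only [h]
        rw [heven]
    rw [e] at hC
    rw [← horb]
    exact hC

end Pool.Agent.Results.MP_95e7ec_an.LienardVariationMean
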