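import Pool.Agent.K9h2.LW.Plane

/-!
# Liénard systems: all closed orbits in the whole plane

`x' = v`, `v' = -g(x) - (p(x) + μ (1 + x² + ... + x^(2 k))) v` with a polynomial `p` of degree at
most `2 k` and a nondecreasing restoring force `g`. If the even coefficients of `p` are at most `A`
and the odd ones at most `B` in absolute value, then closed orbits exist only for `|μ| ≤ A + B`,
and the number of all closed orbits in the plane, without any condition on their size or shape or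
on the friction along them, has integral over `μ` at most
`2 A log (k + 1) (2 + log (8 (k + 1))) + 903 B k`.
-/

namespace Pool.Agent.Results.MP_95e7ec_an.LienardWholePlaneMean

open Polynomial MeasureTheory Set
open scoped ENNReal

/-- All closed orbits (images of nonconstant periodic solutions) of the planar system
`x' = v`, `v' = -g(x) - (p(x) + μ (1 + x² + ... + x^(2 k))) v`. -/
def closedOrbits (g : ℝ → ℝ) (k : ℕ) (p : ℝ[X]) (μ : ℝ) : Set (Set (ℝ × ℝ)) :=
  {C | ∃ γ : ℝ → ℝ × ℝ, ∃ T : ℝ, 0 < T ∧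
    (∀ t, HasDerivAt γ ((γ t).2, -g (γ t).1 -
      (p.eval (γ t).1 + μ * ∑ i ∈ Finset.range (k + 1), (γ t).1 ^ (2 * i)) * (γ t).2) t) ∧
    (∀ t, γ (t + T) = γ t) ∧ (∃ s t, γ s ≠ γ t) ∧ C = range γ}

theorem result (k : ℕ) (hk : 1 ≤ k) (g : ℝ → ℝ) (hg : Continuous g) (hm : Monotone g)
    (hs : ∀ x : ℝ, x ≠ 0 → 0 < x * g x) (p : ℝ[X]) (hd : p.natDegree ≤ 2 * k) (A B : ℝ)
    (hA : ∀ i, |p.coeff (2 * i)| ≤ A) (hB : ∀ i, |p.coeff (2 * i + 1)| ≤ B) :
    (∀ μ : ℝ, (closedOrbits g k p μ).Nonempty → |μ| ≤ A + B) ∧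
    ∃ N : ℝ → ℝ≥0∞, Measurable N ∧
      (∀ μ : ℝ, (((closedOrbits g k p μ).encard : ℕ∞) : ℝ≥0∞) ≤ N μ) ∧
      ∫⁻ μ, N μ ≤ ENNReal.ofReal
        (2 * A * Real.log (k + 1) * (2 + Real.log (8 * (k + 1))) + 903 * B * k) := by
  obtain ⟨m, rfl⟩ : ∃ m, k = m + 1 := ⟨k - 1, by omega⟩
  have hR : K9h2.LI.Rest g := by
    refine ⟨hg, fun x hx => ?_, fun x hx => ?_⟩
    · have := hs x hx.ne
      by_contra hcon
      push Not at hcon
      nlinarith
    · have := hs x hx.ne'
      by_contra hcon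
      push Not at hcon
      nlinarith
  have horb : ∀ μ : ℝ, K9h2.LW.orbitsW g (fun x => p.eval x) (K9h2.LW.wt (m + 1)) μ =
      closedOrbits g (m + 1) p μ := by
    intro μ
    unfold K9h2.LW.orbitsW closedOrbits K9h2.LW.wt
    simp only [pow_mul]
  refine ⟨fun μ hne => ?_, ?_⟩
  · rw [← horb] at hne
    exact K9h2.LW.plane_param hR hd hA hB hne
  · obtain ⟨N, h1, h2, h3⟩ := K9h2.LW.plane hR hm hd hA hB
    refine ⟨N, h1, fun μ => ?_, ?_⟩
    · have := h2 μ
      rwa [horb] at this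
    · have e : (((m + 1 : ℕ) : ℝ) + 1) = m + 2 := by push_cast; ring
      rw [e]
      push_cast
      exact h3

end Pool.Agent.Results.MP_95e7ec_an.LienardWholePlaneMean
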