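import Pool.Agent.K9h44.HS.A7
import Pool.Agent.Y96.HP.Pers

/-! # A uniform cubic bound for the surviving limit cycles of all sizes and shapes

For every planar polynomial vector field of degree at most `n` and every `0 < η ≤ 1`, at most
`2 * 10 ^ 15 * n ^ 3 / η ^ 3` closed orbits of the field, of any size, shape and position, survive
the rotations of the field up to the angle `η` or up to the angle `-η`. Consequently the sum over
all closed orbits of the powers of order `3 + κ` of their survival lengths is at most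
`2 * 10 ^ 17 * n ^ 3 / κ`, and every limit cycle has positive survival length. -/

open Set MeasureTheory
open scoped ENNReal

namespace Pool.Agent.Results.MP_95e7ec_an.SurvivalCubicAllSizes

/-- the vector field `(P, Q)` rotated by the angle `a` -/
noncomputable def rotated (P Q : MvPolynomial (Fin 2) ℝ) (a : ℝ) (z : ℝ × ℝ) : ℝ × ℝ :=
  (Real.cos a * MvPolynomial.eval ![z.1, z.2] P - Real.sin a * MvPolynomial.eval ![z.1, z.2] Q,
    Real.sin a * MvPolynomial.eval ![z.1, z.2] P + Real.cos a * MvPolynomial.eval ![z.1, z.2] Q)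

/-- all closed orbits in the plane (ranges of nonconstant periodic solutions, limit cycles or not)
of the system `x' = P, y' = Q` -/
def closedOrbits (P Q : MvPolynomial (Fin 2) ℝ) : Set (Set (ℝ × ℝ)) :=
  {C | ∃ γ : ℝ → ℝ × ℝ, ∃ T : ℝ, 0 < T ∧
    (∀ t : ℝ, HasDerivAt γ
      (MvPolynomial.eval ![(γ t).1, (γ t).2] P, MvPolynomial.eval ![(γ t).1, (γ t).2] Q) t) ∧
    (∀ t : ℝ, γ (t + T) = γ t) ∧ (∃ s t : ℝ, γ s ≠ γ t) ∧ C = Set.range γ}

/-- the limit cycles: closed orbits with a neighbourhood which contains no other closed orbit -/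
def limitCycles (P Q : MvPolynomial (Fin 2) ℝ) : Set (Set (ℝ × ℝ)) :=
  {C | C ∈ closedOrbits P Q ∧
    ∃ U : Set (ℝ × ℝ), IsOpen U ∧ C ⊆ U ∧ ∀ D ∈ closedOrbits P Q, D ⊆ U → D = C}

/-- The closed orbit `C` of `(P, Q)` survives the rotations of the field up to the angle `η`: there
is a continuous path `τ ↦ γ τ`, `0 ≤ τ ≤ 1`, of pairwise different closed orbits of the fields
rotated by angles `a τ`, which starts with `C` at the angle `0`, ends at the angle `η`, and whose
angles in between lie strictly between `0` and `η`. There is no condition on the sizes of the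
members of the path. -/
def Survives (P Q : MvPolynomial (Fin 2) ℝ) (η : ℝ) (C : Set (ℝ × ℝ)) : Prop :=
  ∃ (a : ℝ → ℝ) (γ : ℝ → ℝ → ℝ × ℝ) (T : ℝ → ℝ),
    ContinuousOn a (Icc 0 1) ∧ a 0 = 0 ∧ a 1 = η ∧
    (∀ τ ∈ Ioo 0 1, min 0 η < a τ ∧ a τ < max 0 η) ∧
    ContinuousOn (fun q : ℝ × ℝ => γ q.1 q.2) (Icc 0 1 ×ˢ univ) ∧ ContinuousOn T (Icc 0 1) ∧
    (∀ τ ∈ Icc 0 1, 0 < T τ ∧ (∀ t, HasDerivAt (γ τ) (rotated P Q (a τ) (γ τ t)) t) ∧
      (∀ t, γ τ (t + T τ) = γ τ t) ∧ (∃ s t, γ τ s ≠ γ τ t)) ∧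
    (∀ τ ∈ Icc 0 1, ∀ τ' ∈ Icc 0 1, range (γ τ) = range (γ τ') → τ = τ') ∧
    C = range (γ 0)

/-- the length of the set of angles `η` in `(-1, 1)` such that the closed orbit `C` survives the
rotations up to the angle `η` -/
noncomputable def survival (P Q : MvPolynomial (Fin 2) ℝ) (C : Set (ℝ × ℝ)) : ℝ≥0∞ :=
  volume {η : ℝ | η ∈ Ioo (-1) 1 ∧ Survives P Q η C}

/-- the closed orbits which survive the rotations up to the angle `η` or up to the angle `-η` -/
def survivors (P Q : MvPolynomial (Fin 2) ℝ) (η : ℝ) : Set (Set (ℝ × ℝ)) :=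
  {C | C ∈ closedOrbits P Q ∧ (Survives P Q η C ∨ Survives P Q (-η) C)}

variable {n : ℕ} {P Q : MvPolynomial (Fin 2) ℝ}

lemma survives_iff (η : ℝ) (C : Set (ℝ × ℝ)) :
    Survives P Q η C ↔ W960.HP.PersG (H709R2.field P Q) (fun _ _ => True) η C := by
  constructor
  · rintro ⟨a, γ, T, h1, h2, h3, h4, h5, h6, h7, h8, h9⟩
    exact ⟨a, γ, T, h1, h2, h3, h4, h5, h6, fun τ hτ =>
      ⟨(h7 τ hτ).1, (h7 τ hτ).2.1, (h7 τ hτ).2.2.1, (h7 τ hτ).2.2.2, trivial⟩, h8, h9⟩
  · rintro ⟨a, γ, T, h1, h2, h3, h4, h5, h6, h7, h8, h9⟩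
    exact ⟨a, γ, T, h1, h2, h3, h4, h5, h6, fun τ hτ =>
      ⟨(h7 τ hτ).1, (h7 τ hτ).2.1, (h7 τ hτ).2.2.1, (h7 τ hτ).2.2.2.1⟩, h8, h9⟩

/-- **The number of surviving closed orbits is at most a constant times the cube of the degree.**
For every planar polynomial vector field `(P, Q)` of degree at most `n`:

* for `0 < η ≤ 1` at most `2 * 10 ^ 15 * n ^ 3 / η ^ 3` closed orbits, of any size, shape and
  position, survive the rotations of the field up to `η` or up to `-η`;
* for `0 < κ ≤ 1` the sum over all closed orbits of the powers of order `3 + κ` of their survival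
  lengths is at most `2 * 10 ^ 17 * n ^ 3 / κ`;
* every limit cycle has positive survival length. -/
theorem result (n : ℕ) (P Q : MvPolynomial (Fin 2) ℝ) (hP : P.totalDegree ≤ n)
    (hQ : Q.totalDegree ≤ n) :
    (∀ η : ℝ, 0 < η → η ≤ 1 →
      ((survivors P Q η).encard : ℝ≥0∞) ≤ ENNReal.ofReal (2 * 10 ^ 15 * n ^ 3 / η ^ 3)) ∧
    (∀ κ : ℝ, 0 < κ → κ ≤ 1 → ∑' C : closedOrbits P Q, survival P Q C ^ (3 + κ) ≤
      ENNReal.ofReal (2 * 10 ^ 17 * n ^ 3 / κ)) ∧
    ∀ C ∈ limitCycles P Q, 0 < survival P Q C := by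
  have hF : ContDiff ℝ 2 (H709R2.field P Q) := H709R2.contDiff_field P Q
  refine ⟨fun η h0 h1 => ?_, fun κ h0 h1 => ?_, fun C hC => ?_⟩
  · have h2 := K9h44.HS.side_all hP hQ (σ := 1) (Or.inl rfl) h0 h1
    have h3 := K9h44.HS.side_all hP hQ (σ := -1) (Or.inr rfl) h0 h1
    have h4 : survivors P Q η ⊆
        {C | W960.HP.PersG (H709R2.field P Q) (fun _ _ => True) (1 * η) C} ∪
        {C | W960.HP.PersG (H709R2.field P Q) (fun _ _ => True) (-1 * η) C} := by
      rintro C ⟨-, h | h⟩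
      · refine Or.inl ?_
        rw [Set.mem_ofPred_eq, one_mul]
        exact (survives_iff η C).1 h
      · refine Or.inr ?_
        rw [Set.mem_ofPred_eq, neg_one_mul]
        exact (survives_iff (-η) C).1 h
    have h5 := (encard_le_encard h4).trans (encard_union_le _ _)
    have h6 := (ENat.toENNReal_le.2 h5)
    rw [ENat.toENNReal_add] at h6
    refine h6.trans ((add_le_add h2 h3).trans ?_)
    rw [← ENNReal.ofReal_add (by positivity) (by positivity)]
    apply ENNReal.ofReal_le_ofReal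
    rw [← add_div, div_le_div_iff_of_pos_right (by positivity)]
    have : (0:ℝ) ≤ (n:ℝ) ^ 3 := by positivity
    linarith
  · have h2 := K9h44.HS.weighted hP hQ h0 h1 (closedOrbits P Q)
    refine le_trans (le_of_eq ?_) h2
    refine tsum_congr fun C => ?_
    unfold survival
    simp only [survives_iff]
  · obtain ⟨hC1, U, hU, hCU, hiso⟩ := hC
    have h1 := Y96.HP.pos_pers hF hC1 hU hCU
      (fun D hD hDU => hiso D hD hDU) (G := fun _ _ => True)
      (fun _ _ ε₀ hε₀ _ _ _ _ => ⟨ε₀, hε₀, le_rfl, fun _ _ _ => trivial⟩) one_pos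
    unfold survival
    simp only [survives_iff]
    exact h1

end Pool.Agent.Results.MP_95e7ec_an.SurvivalCubicAllSizes
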